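import Pool.Agent.TH177.GH.Facts

/-!
# Closed subgroups of the circle group, and freeness of the actions
-/

open CategoryTheory CategoryTheory.Limits MonoidalCategory

namespace Pool.Agent.TH177.GH

/-- A closed subgroup of the circle group is finite or the whole group. -/
theorem closed_subgroup (H : Subgroup Circle) (hH : IsClosed (H : Set Circle)) :
    Finite H ∨ H = ⊤ := by
  let K : AddSubgroup ℝ := AddSubgroup.comap Circle.expHom (Subgroup.toAddSubgroup H)
  have hK : ∀ x : ℝ, x ∈ K ↔ Circle.exp x ∈ H := fun x => Iff.rfl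
  have hKc : IsClosed (K : Set ℝ) := by
    have : (K : Set ℝ) = Circle.exp ⁻¹' (H : Set Circle) := by
      ext x
      exact hK x
    rw [this]
    exact hH.preimage Circle.exp.continuous
  rcases AddSubgroup.dense_or_cyclic K with hd | ⟨a, ha⟩
  · right
    have hu : (K : Set ℝ) = Set.univ := by
      rw [← hKc.closure_eq]
      exact hd.closure_eq
    rw [eq_top_iff]
    intro z _
    obtain ⟨x, rfl⟩ := Circle.exp_surjective z
    have : x ∈ (K : Set ℝ) := by rw [hu]; trivial
    exact (hK x).1 this
  · left
    have h2 : (2 * Real.pi) ∈ K := by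
      rw [hK, Circle.exp_two_pi]
      exact H.one_mem
    rw [ha, AddSubgroup.mem_closure_singleton] at h2
    obtain ⟨n, hn⟩ := h2
    have hn0 : n ≠ 0 := by
      rintro rfl
      have := Real.pi_pos
      simp at hn
    have hz : Circle.exp a ^ n = 1 := by
      have : Circle.exp (n • a) = Circle.exp a ^ n := by
        have := map_zsmul Circle.expHom n a
        exact this
      rw [← this, hn, Circle.exp_two_pi]
    have hfin : IsOfFinOrder (Circle.exp a) := by
      rw [isOfFinOrder_iff_zpow_eq_one]
      exact ⟨n, hn0, hz⟩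
    have hle : H ≤ Subgroup.zpowers (Circle.exp a) := by
      intro z hz
      obtain ⟨x, rfl⟩ := Circle.exp_surjective z
      have hx : x ∈ K := (hK x).2 hz
      rw [ha, AddSubgroup.mem_closure_singleton] at hx
      obtain ⟨k, rfl⟩ := hx
      exact ⟨k, (map_zsmul Circle.expHom k a).symm⟩
    have : (Subgroup.zpowers (Circle.exp a) : Set Circle).Finite := by
      rw [← Set.finite_coe_iff]
      exact hfin.finite_zpowers
    exact (this.subset hle).to_subtype

theorem free_S3 (t : Circle) (z : S3) (h : t • z = z) : t = 1 := by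
  have hz : ‖z.1‖ = 1 := by simp
  have hz0 : z.1 ≠ 0 := by
    intro h0
    rw [h0] at hz
    simp at hz
  have h' : (t : ℂ) • z.1 = (1 : ℂ) • z.1 := by
    rw [one_smul]
    exact congrArg Subtype.val h
  have := smul_left_injective ℂ hz0 h'
  exact Circle.ext this

instance properS3 : ProperSMul Circle S3 where
  isProperMap_smul_pair := Continuous.isProperMap (by fun_prop)

theorem t2_quo (H : Subgroup Circle) (hH : IsClosed (H : Set Circle)) :
    T2Space (quo H).carrier :=
  (t2Space_quotient_mulAction_of_properSMul :
    T2Space (Quotient (MulAction.orbitRel H S3)))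

theorem compact_quo (H : Subgroup Circle) : CompactSpace (quo H).carrier :=
  (Quotient.compactSpace : CompactSpace (Quotient (MulAction.orbitRel H S3)))

theorem compact_orbit (H : Subgroup Circle) :
    CompactSpace (orbit (G := circle) H).carrier :=
  (Quotient.compactSpace : CompactSpace (Circle ⧸ H))

theorem t2_orbit (H : Subgroup Circle) (hH : IsClosed (H : Set Circle)) :
    T2Space (orbit (G := circle) H).carrier :=
  (QuotientGroup.instT2Space : T2Space (Circle ⧸ H))

theorem compact_Z : CompactSpace Z.carrier := (inferInstance : CompactSpace S3)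

theorem t2_Z : T2Space Z.carrier := (inferInstance : T2Space S3)

theorem isFreeCompact_prod (A : GSpace circle) (h₁ : CompactSpace A.carrier)
    (h₂ : T2Space A.carrier) : IsFreeCompact (prod Z A) :=
  ⟨@instCompactSpaceProd _ _ _ _ compact_Z h₁, @Prod.t2Space _ _ _ t2_Z _ h₂,
    fun t x h => free_S3 t x.1 (congrArg Prod.fst h)⟩

theorem isFreeCompact_Z : IsFreeCompact Z :=
  ⟨compact_Z, t2_Z, free_S3⟩

theorem isFreeCompact_ZZ : IsFreeCompact (prod Z Z) := isFreeCompact_prod Z compact_Z t2_Z

theorem isFreeCompact_quo (H : Subgroup Circle) (hH : IsClosed (H : Set Circle)) :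
    IsFreeCompact (prod Z (quo H)) :=
  isFreeCompact_prod (quo H) (compact_quo H) (t2_quo H hH)

theorem isFreeCompact_W (H : Subgroup Circle) (hH : IsClosed (H : Set Circle)) :
    IsFreeCompact (prod Z (W H)) :=
  isFreeCompact_prod (W H) (@instCompactSpaceProd _ _ _ _ (compact_orbit H) (compact_quo H))
    (@Prod.t2Space _ _ _ (t2_orbit H hH) _ (t2_quo H hH))

end Pool.Agent.TH177.GH
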