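import Mathlib

/-!
# Equivariant stable homotopy categories and the generating hypothesis

Compact Lie groups, spaces with a continuous action, the structure carried by the equivariant
stable homotopy category of a group (a closed symmetric monoidal triangulated category with
suspension spectra), finite objects (the thick subcategory generated by the orbits), homotopy
groups of fixed point spectra, and the equivariant generating hypothesis.
-/

open CategoryTheory CategoryTheory.Limits MonoidalCategory

namespace Pool.Agent.TH177.GH

section

open scoped Manifold ContDiff

/-- A compact Lie group. -/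
structure CompactLieGroup where
  /-- the underlying set -/
  carrier : Type
  [group : Group carrier]
  [top : TopologicalSpace carrier]
  [topGroup : IsTopologicalGroup carrier]
  [t2 : T2Space carrier]
  [compact : CompactSpace carrier]
  /-- the dimension -/
  dim : ℕ
  [charted : ChartedSpace (EuclideanSpace ℝ (Fin dim)) carrier]
  [lie : LieGroup (𝓡 dim) ω carrier]

end

attribute [instance] CompactLieGroup.group CompactLieGroup.top CompactLieGroup.topGroup
  CompactLieGroup.t2 CompactLieGroup.compact CompactLieGroup.charted CompactLieGroup.lie

/-- A space with a continuous action of a compact Lie group. -/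
structure GSpace (G : CompactLieGroup) where
  /-- the underlying set -/
  carrier : Type
  [top : TopologicalSpace carrier]
  [act : MulAction G.carrier carrier]
  [cont : ContinuousSMul G.carrier carrier]

attribute [instance] GSpace.top GSpace.act GSpace.cont

variable {G : CompactLieGroup}

/-- Equivariant continuous maps. -/
@[ext]
structure GMap (A B : GSpace G) where
  /-- the underlying map -/
  toFun : A.carrier → B.carrier
  continuous_toFun : Continuous toFun
  map_smul : ∀ (g : G.carrier) (x : A.carrier), toFun (g • x) = g • toFun x

/-- The identity map. -/
def GMap.id (A : GSpace G) : GMap A A := ⟨fun x => x, continuous_id, fun _ _ => rfl⟩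

/-- The composite of two equivariant maps, first `f`, then `g`. -/
def GMap.comp {A B C : GSpace G} (f : GMap A B) (g : GMap B C) : GMap A C :=
  ⟨fun x => g.toFun (f.toFun x), g.continuous_toFun.comp f.continuous_toFun,
    fun s x => by rw [f.map_smul, g.map_smul]⟩

/-- The trivial action on a set. -/
@[reducible] def trivialAction (G : CompactLieGroup) (B : Type) : MulAction G.carrier B where
  toSMul := ⟨fun _ x => x⟩
  one_smul _ := rfl
  mul_smul _ _ _ := rfl

/-- A space, with the trivial action. -/
def space (G : CompactLieGroup) (B : Type) [TopologicalSpace B] : GSpace G :=
  @GSpace.mk G B _ (trivialAction G B) (@ContinuousSMul.mk _ _ (trivialAction G B).toSMul _ _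
    continuous_snd)

/-- The orbit `G/H`. -/
def orbit (H : Subgroup G.carrier) : GSpace G where
  carrier := G.carrier ⧸ H

/-- The product of two spaces, with the diagonal action. -/
def prod (A B : GSpace G) : GSpace G where
  carrier := A.carrier × B.carrier

/-- The second projection of a product. -/
def snd (A B : GSpace G) : GMap (prod A B) B where
  toFun x := x.2
  continuous_toFun := continuous_snd
  map_smul _ _ := rfl

/-- The product of the identity of `A` with a map. -/
def prodMap (A : GSpace G) {B C : GSpace G} (g : GMap B C) : GMap (prod A B) (prod A C) where
  toFun x := (x.1, g.toFun x.2)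
  continuous_toFun := continuous_fst.prodMk (g.continuous_toFun.comp continuous_snd)
  map_smul s x := Prod.ext rfl (g.map_smul s x.2)

/-- The structure carried by the stable homotopy category of spectra with an action of `G`: a
closed symmetric monoidal triangulated category, with functorial suspension spectra: `sp A` is the
suspension spectrum of the space `A` with a disjoint base point. The suspension spectrum of the
point is the unit and suspension spectra take products to smash products. -/
structure StableCategory (G : CompactLieGroup) where
  /-- the objects -/
  Ho : Type 1
  [cat : Category.{0} Ho]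
  [preadd : Preadditive Ho]
  [zero : HasZeroObject Ho]
  [shift : HasShift Ho ℤ]
  [shiftAdd : ∀ n : ℤ, (shiftFunctor Ho n).Additive]
  [tri : Pretriangulated Ho]
  [mon : MonoidalCategory Ho]
  [monAdd : MonoidalPreadditive Ho]
  [sym : SymmetricCategory Ho]
  [closed : MonoidalClosed Ho]
  /-- suspension spectra (of spaces with a disjoint base point) -/
  sp : GSpace G → Ho
  /-- the map of suspension spectra induced by a map of spaces -/
  map : ∀ {A B : GSpace G}, GMap A B → (sp A ⟶ sp B)
  map_id : ∀ A : GSpace G, map (GMap.id A) = 𝟙 (sp A)
  map_comp : ∀ {A B C : GSpace G} (f : GMap A B) (g : GMap B C),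
    map (f.comp g) = map f ≫ map g
  /-- the point goes to the unit -/
  unitIso : sp (space G PUnit) ≅ 𝟙_ Ho
  /-- products go to smash products -/
  smash : ∀ A B : GSpace G, sp A ⊗ sp B ≅ sp (prod A B)
  /-- naturality of the previous isomorphism in the second variable -/
  smash_natural : ∀ (A : GSpace G) {B C : GSpace G} (g : GMap B C),
    sp A ◁ map g ≫ (smash A C).hom = (smash A B).hom ≫ map (prodMap A g)

attribute [instance] StableCategory.cat StableCategory.preadd StableCategory.zero
  StableCategory.shift StableCategory.shiftAdd StableCategory.tri StableCategory.mon
  StableCategory.monAdd StableCategory.sym StableCategory.closed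

namespace StableCategory

variable (S : StableCategory G)

/-- The objects of the thick subcategory generated by the suspension spectra of the orbits `G/H`,
`H` a closed subgroup. -/
def IsFinite (X : S.Ho) : Prop :=
  ∀ P : ObjectProperty S.Ho, P.IsTriangulated → P.IsStableUnderRetracts →
    (∀ H : Subgroup G.carrier, IsClosed (H : Set G.carrier) → P (S.sp (orbit H))) → P X

/-- The homotopy group `π_n^H(X) = [Σⁿ Σ^∞ (G/H)₊, X]`. -/
def Pi (n : ℤ) (H : Subgroup G.carrier) (X : S.Ho) : Type := (S.sp (orbit H))⟦n⟧ ⟶ X

instance (n : ℤ) (H : Subgroup G.carrier) (X : S.Ho) : AddCommGroup (S.Pi n H X) :=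
  (inferInstance : AddCommGroup ((S.sp (orbit H))⟦n⟧ ⟶ X))

variable {S}

/-- The map induced on homotopy groups by a map in the stable homotopy category. -/
def push {X Y : S.Ho} (f : X ⟶ Y) (n : ℤ) (H : Subgroup G.carrier) (a : S.Pi n H X) :
    S.Pi n H Y :=
  CategoryStruct.comp (obj := S.Ho) a f

/-- A map which induces zero on all homotopy groups `π_n^H`, `H` a closed subgroup. -/
def IsGhost {X Y : S.Ho} (f : X ⟶ Y) : Prop :=
  ∀ H : Subgroup G.carrier, IsClosed (H : Set G.carrier) →
    ∀ (n : ℤ) (a : S.Pi n H X), push f n H a = 0

variable (S)

/-- The generating hypothesis: a map between finite objects is zero if and only if it induces zero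
on all homotopy groups `π_n^H`, `H` a closed subgroup. -/
def GeneratingHypothesis : Prop :=
  ∀ X Y : S.Ho, S.IsFinite X → S.IsFinite Y → ∀ f : X ⟶ Y, f = 0 ↔ IsGhost f

end StableCategory

/-- Question Q1, for the family `T` of equivariant stable homotopy categories: the generating
hypothesis holds for every compact Lie group. -/
def Q1 (T : ∀ G : CompactLieGroup, StableCategory G) : Prop :=
  ∀ G : CompactLieGroup, (T G).GeneratingHypothesis

end Pool.Agent.TH177.GH
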