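import Pool.Agent.TH177.GH.Spaces

/-!
# The standard facts used in the counterexample

`CohomologyFacts` collects facts on the stable cohomotopy and the integral cohomology of a few
closed manifolds; `EquivariantFacts` collects facts on the stable homotopy category of spectra
with an action of the circle group.
-/

open CategoryTheory CategoryTheory.Limits MonoidalCategory

namespace Pool.Agent.TH177.GH

noncomputable section

section General

variable {G : CompactLieGroup} (S : StableCategory G)

/-- The sphere spectrum of dimension `n`. -/
def StableCategory.sphere (n : ℤ) : S.Ho := (𝟙_ S.Ho)⟦n⟧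

/-- The `n`-th stable cohomotopy group of the space `A`: stable maps from `A₊` to the sphere of
dimension `n`. -/
def StableCategory.Coh (n : ℤ) (A : GSpace G) : Type := S.sp A ⟶ S.sphere n

instance (n : ℤ) (A : GSpace G) : AddCommGroup (S.Coh n A) :=
  (inferInstance : AddCommGroup (S.sp A ⟶ S.sphere n))

/-- The function spectrum `F(X, Sⁿ)`, with values in the sphere spectrum of dimension `n`. -/
def StableCategory.dual (X : S.Ho) (n : ℤ) : S.Ho := (ihom X).obj (S.sphere n)

variable {S}

/-- Precomposition of a stable cohomotopy class with a stable map. -/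
def StableCategory.along {n : ℤ} {A B : GSpace G} (t : S.sp A ⟶ S.sp B) (x : S.Coh n B) :
    S.Coh n A :=
  CategoryStruct.comp (obj := S.Ho) t x

/-- The product of the identity of `D` with a stable map. -/
def StableCategory.times (D : GSpace G) {A B : GSpace G} (t : S.sp A ⟶ S.sp B) :
    S.sp (prod D A) ⟶ S.sp (prod D B) :=
  (S.smash D A).inv ≫ S.sp D ◁ t ≫ (S.smash D B).hom

/-- The space `A` is compact and Hausdorff and the action on it is free. -/
def IsFreeCompact (A : GSpace G) : Prop :=
  CompactSpace A.carrier ∧ T2Space A.carrier ∧ ∀ (t : G.carrier) (x : A.carrier), t • x = x → t = 1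

end General

section Nonequivariant

/-- A cohomology theory with a unit: an object `E` of the nonequivariant stable homotopy category
with a map from the sphere spectrum. -/
structure Theory (S : StableCategory one) where
  /-- the spectrum representing the cohomology theory -/
  E : S.Ho
  /-- the unit map -/
  unit : 𝟙_ S.Ho ⟶ E

variable {S : StableCategory one}

namespace Theory

variable (R : Theory S)

/-- The cohomology group `Eⁿ(B)`. -/
def H (n : ℤ) (B : GSpace one) : Type := S.sp B ⟶ R.E⟦n⟧

instance (n : ℤ) (B : GSpace one) : AddCommGroup (R.H n B) :=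
  (inferInstance : AddCommGroup (S.sp B ⟶ R.E⟦n⟧))

/-- The Hurewicz map from stable cohomotopy to `E`-cohomology. -/
def hurewicz {n : ℤ} {B : GSpace one} (x : S.Coh n B) : R.H n B :=
  CategoryStruct.comp (obj := S.Ho) x (R.unit⟦n⟧')

/-- Precomposition of a cohomology class with a stable map. -/
def along {n : ℤ} {B C : GSpace one} (t : S.sp B ⟶ S.sp C) (x : R.H n C) : R.H n B :=
  CategoryStruct.comp (obj := S.Ho) t x

/-- The stable map `t` from the base to the total space of `p` behaves on `E`-cohomology as the
transfer of an `m`-sheeted covering `p`: pulling back along `p` and then transferring back is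
multiplication by `m`. -/
def IsTransfer {B C : GSpace one} (p : GMap B C) (m : ℕ) (t : S.sp C ⟶ S.sp B) : Prop :=
  ∀ (n : ℤ) (x : R.H n C), R.along t (R.along (S.map p) x) = m • x

/-- The group `Eⁿ(B)` is zero. -/
def Vanishes (n : ℤ) (B : GSpace one) : Prop := ∀ x : R.H n B, x = 0

/-- The kernel of the Hurewicz map `πⁿ(B) → Eⁿ(B)` is killed by `N`. -/
def KernelKilled (N : ℕ) (n : ℤ) (B : GSpace one) : Prop :=
  ∀ x : S.Coh n B, R.hurewicz x = 0 → N • x = 0

/-- The class `x` has infinite order. -/
def InfiniteOrder {n : ℤ} {B : GSpace one} (x : R.H n B) : Prop := ∀ m : ℕ, m • x = 0 → m = 0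

end Theory

/-- The transfers of two coverings with `|H|` sheets, for a finite subgroup `H` of the circle group
`T`. Here `Z` is the unit sphere of `ℂ²`. -/
structure Transfers (R : Theory S) (H : Subgroup Circle) where
  /-- the transfer of the covering `Z → Z/H` -/
  tr₁ : S.sp (under (quo H)) ⟶ S.sp (under Z)
  tr₁_isTransfer : R.IsTransfer (underMap (proj H)) (Nat.card H) tr₁
  /-- the transfer of the covering `(Z × Z)/T → (Z × Z/H)/T` -/
  tr₂ : S.sp (orb (prod Z (quo H))) ⟶ S.sp (orb (prod Z Z))
  tr₂_isTransfer : R.IsTransfer (orbMap (prodMap Z (proj H))) (Nat.card H) tr₂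

/-- Facts on the cohomology of spaces, in the nonequivariant stable homotopy category `S`. Here `Z`
is the unit sphere of `ℂ²`, `T` is the circle group and `H` is a finite subgroup of `T`. -/
structure CohomologyFacts (S : StableCategory one) where
  /-- integral cohomology -/
  hz : Theory S
  /-- `H²(S³; ℤ) = 0` -/
  sphere : hz.Vanishes 2 (under Z)
  /-- `H¹(S² × S²; ℤ) = 0`, where `S² × S² = (Z × Z/T)/T` -/
  product : hz.Vanishes 1 (orb (prod Z (quo ⊤)))
  /-- a stable cohomotopy class on `Z/T = ℂP¹ = S²` (the identity of `S²`) -/
  e : S.Coh 2 (orb Z)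
  /-- its Hurewicz image generates `H²(S²; ℤ) = ℤ`, so has infinite order -/
  e_infinite : hz.InfiniteOrder (hz.hurewicz e)
  /-- the transfers of the coverings `Z → Z/H` and `(Z × Z)/T → (Z × Z/H)/T` -/
  transfers : ∀ (H : Subgroup Circle) [Finite H], Transfers hz H
  /-- an integer, for instance `96` -/
  N : ℕ
  N_ne_zero : N ≠ 0
  /-- the kernel of the Hurewicz map `π²(B) → H²(B; ℤ)` of the closed `6`-manifold
  `B = (Z × (T/H × Z/H))/T`, which is `Z/H × Z/H`, is killed by `N` (Atiyah–Hirzebruch spectral
  sequence; the stable stems of degrees `1, 2, 3, 4` have orders `2, 2, 24, 1`) -/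
  kernel : ∀ (H : Subgroup Circle) [Finite H], hz.KernelKilled N 2 (orb (prod Z (W H)))
  /-- the kernel of the Hurewicz map `π¹(B) → H¹(B; ℤ)` of `B = (Z × Z/T)/T = S² × S²` is killed
  by `N` (for the same reason) -/
  kernel_top : hz.KernelKilled N 1 (orb (prod Z (quo ⊤)))

end Nonequivariant

section Equivariant

/-- Isomorphisms between the stable cohomotopy of a free space with action of the circle group and
the stable cohomotopy of its orbit space. -/
structure FreeIso (S : StableCategory one) (C : StableCategory circle) where
  iso : ∀ A : GSpace circle, IsFreeCompact A → ∀ n : ℤ, C.Coh n A ≃+ S.Coh n (orb A)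

variable {S : StableCategory one} {C : StableCategory circle}

/-- The map `t` between suspension spectra of free spaces induces, on stable cohomotopy, the map
`t'` between suspension spectra of orbit spaces. -/
def FreeIso.Induces (K : FreeIso S C) {A B : GSpace circle} (t : C.sp A ⟶ C.sp B)
    (t' : S.sp (orb A) ⟶ S.sp (orb B)) : Prop :=
  ∀ (hA : IsFreeCompact A) (hB : IsFreeCompact B) (n : ℤ) (x : C.Coh n B),
    K.iso A hA n (C.along t x) = S.along t' (K.iso B hB n x)

/-- The transfer, for a finite subgroup `H` of the circle group `T`, of the equivariant covering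
`Z → Z/H`. -/
structure EquivariantTransfer (K : FreeIso S C) {R : Theory S} {H : Subgroup Circle}
    (t : Transfers R H) where
  /-- the equivariant transfer of the covering `Z → Z/H` -/
  transfer : C.sp (quo H) ⟶ C.sp Z
  /-- the product of `Z` with this transfer is the transfer of the covering `Z × Z → Z × Z/H`, and
  induces on orbit spaces the transfer of the covering `(Z × Z)/T → (Z × Z/H)/T` -/
  transfer_orbits : K.Induces (C.times Z transfer) t.tr₂
  /-- the Adams isomorphism for `H`: the homotopy groups of the fixed points of `Z` under `H` come,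
  by the transfer, from the homotopy groups of `Z/H` -/
  adams : ∀ n : ℤ, Function.Surjective (C.push (C.map (sndW H) ≫ transfer) n H)

/-- Facts on the stable homotopy category `C` of spectra with an action of the circle group `T`.
Here `Z` is the unit sphere of `ℂ²` and `H` is a finite subgroup of `T`. -/
structure EquivariantFacts (F : CohomologyFacts S) (C : StableCategory circle) where
  /-- the sphere `Z` is a finite cell complex -/
  finite_sphere : C.IsFinite (C.sp Z)
  /-- (shifted) duals of finite objects are finite -/
  finite_dual : ∀ X : C.Ho, C.IsFinite X → C.IsFinite (C.dual X 2)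
  /-- duals commute with suspension -/
  dual_shift : C.dual (C.sp Z) 2 ≅ (C.dual (C.sp Z) 1)⟦(1 : ℤ)⟧
  /-- the stable cohomotopy of a free space is the stable cohomotopy of its orbit space -/
  free : FreeIso S C
  free_natural : ∀ (A B : GSpace circle) (g : GMap A B),
    free.Induces (C.map g) (S.map (orbMap g))
  /-- the transfer of the covering `Z → Z/H` and the Adams isomorphism for `H` -/
  transfer : ∀ (H : Subgroup Circle) [Finite H], EquivariantTransfer free (F.transfers H)
  /-- the dimension shifting transfer from `Z/T` to `Z` -/
  transferTop : (C.sp (quo ⊤))⟦(1 : ℤ)⟧ ⟶ C.sp Z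
  /-- the Adams isomorphism for the whole circle group -/
  adams_top : ∀ n : ℤ, Function.Surjective (C.push transferTop n ⊤)

end Equivariant

end

end Pool.Agent.TH177.GH
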