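import Pool.Agent.TH177.GH.Closed

/-!
# The counterexample
-/

open CategoryTheory CategoryTheory.Limits MonoidalCategory MonoidalClosed

namespace Pool.Agent.TH177.GH

section Geometry

/-- The map `T/H × Z/H → Z/H`, `(t H, w H) ↦ t⁻¹ w H`. -/
noncomputable def shear (H : Subgroup Circle) (x : Circle ⧸ H)
    (y : MulAction.orbitRel.Quotient H S3) : MulAction.orbitRel.Quotient H S3 :=
  Quotient.liftOn₂' x y (fun t w => (Quotient.mk'' (t⁻¹ • w) :
    MulAction.orbitRel.Quotient H S3)) (by
    rintro t w t' w' ht ⟨k, rfl⟩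
    rw [QuotientGroup.leftRel_apply] at ht
    apply Quotient.sound'
    refine ⟨⟨t⁻¹ * t', ht⟩ * k, ?_⟩
    change ((t⁻¹ * t') * (k : Circle)) • (t'⁻¹ • w') = t⁻¹ • ((k : Circle) • w')
    rw [← mul_smul, ← mul_smul]
    congr 1
    rw [mul_assoc, mul_assoc, mul_left_comm t', mul_inv_cancel, mul_one])

theorem continuous_shear (H : Subgroup Circle) :
    Continuous (fun p : (Circle ⧸ H) × MulAction.orbitRel.Quotient H S3 =>
      shear H p.1 p.2) := by
  have h₁ : IsOpenQuotientMap (fun t : Circle => (QuotientGroup.mk t : Circle ⧸ H)) :=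
    QuotientGroup.isOpenQuotientMap_mk
  rw [← (h₁.prodMap (isOpenQuotientMap_quo S3 H)).continuous_comp_iff]
  exact (isOpenQuotientMap_quo S3 H).continuous.comp (continuous_fst.inv.smul continuous_snd)

theorem shear_smul (H : Subgroup Circle) (u : Circle) (x : Circle ⧸ H)
    (y : MulAction.orbitRel.Quotient H S3) :
    shear H (u • x) (u • y) = shear H x y := by
  induction x using QuotientGroup.induction_on with
  | H t =>
    induction y using Quotient.inductionOn' with
    | h w =>
      change (Quotient.mk'' ((u * t)⁻¹ • (u • w)) : MulAction.orbitRel.Quotient H S3) =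
        Quotient.mk'' (t⁻¹ • w)
      rw [← mul_smul]
      congr 2
      rw [mul_inv_rev, mul_assoc, inv_mul_cancel, mul_one]

/-- The map `(Z × (T/H × Z/H))/T → Z/H`, `(z, t H, w H) ↦ t⁻¹ w H`. -/
noncomputable def shearMap (H : Subgroup Circle) : GMap (orb (prod Z (W H))) (under (quo H)) where
  toFun := Quotient.lift (fun x : (prod Z (W H)).carrier => shear H x.2.1 x.2.2) (by
    rintro x y ⟨u, rfl⟩
    exact shear_smul H u y.2.1 y.2.2)
  continuous_toFun := Continuous.quotient_lift
    ((continuous_shear H).comp continuous_snd) _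
  map_smul _ _ := rfl

/-- The map `Z/H → Z/T`. -/
noncomputable def toOrb (H : Subgroup Circle) : GMap (under (quo H)) (orb Z) where
  toFun := Quotient.map' (fun x : S3 => x) (by
    rintro x y ⟨h, rfl⟩
    exact ⟨(h : Circle), rfl⟩)
  continuous_toFun := Continuous.quotient_map' continuous_id _
  map_smul _ _ := rfl

/-- The map `(Z/H)/T → Z/T`. -/
noncomputable def collapse (H : Subgroup Circle) : GMap (orb (quo H)) (orb Z) where
  toFun := Quotient.lift (fun x : (quo H).carrier => (toOrb H).toFun x) (by
    rintro x y ⟨u, rfl⟩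
    induction y using Quotient.inductionOn' with
    | h w => exact Quotient.sound' ⟨u, rfl⟩)
  continuous_toFun := Continuous.quotient_lift (toOrb H).continuous_toFun _
  map_smul _ _ := rfl

/-- The diagonal. -/
noncomputable def diag : GMap Z (prod Z Z) where
  toFun z := (z, z)
  continuous_toFun := continuous_id.prodMk continuous_id
  map_smul _ _ := rfl

theorem snd_factor (H : Subgroup Circle) : orbMap (snd Z Z) =
    (orbMap (prodMap Z (proj H))).comp ((orbMap (snd Z (quo H))).comp (collapse H)) := by
  apply GMap.ext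
  funext x
  induction x using Quotient.inductionOn' with
  | h w => rfl

theorem shear_factor (H : Subgroup Circle) :
    (orbMap (prodMap Z (sndW H))).comp
      ((orbMap (snd Z (quo H))).comp (collapse H)) = (shearMap H).comp (toOrb H) := by
  apply GMap.ext
  funext x
  induction x using Quotient.inductionOn' with
  | h w =>
    obtain ⟨z, t, y⟩ := w
    induction t using QuotientGroup.induction_on with
    | H t =>
      induction y using Quotient.inductionOn' with
      | h w =>
        refine Quotient.sound' ⟨t, ?_⟩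
        change t • (t⁻¹ • w) = w
        rw [← mul_smul, mul_inv_cancel, one_smul]

theorem snd_diag : (orbMap diag).comp (orbMap (snd Z Z)) = GMap.id _ := by
  apply GMap.ext
  funext x
  induction x using Quotient.inductionOn' with
  | h w => rfl

end Geometry

section Along

variable {G : CompactLieGroup} {S : StableCategory G} {n : ℤ} {A B D : GSpace G}

theorem along_comp (t : S.sp A ⟶ S.sp B) (t' : S.sp B ⟶ S.sp D) (x : S.Coh n D) :
    S.along (t ≫ t') x = S.along t (S.along t' x) :=
  Category.assoc _ _ _

theorem along_nsmul (t : S.sp A ⟶ S.sp B) (m : ℕ) (x : S.Coh n B) :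
    S.along t (m • x) = m • S.along t x :=
  Preadditive.comp_nsmul _ _ _

theorem along_zero (t : S.sp A ⟶ S.sp B) : S.along t (0 : S.Coh n B) = 0 :=
  comp_zero

end Along

section Theory

variable {S : StableCategory one} (R : Theory S) {n : ℤ} {A B D : GSpace one}

theorem ralong_comp (t : S.sp A ⟶ S.sp B) (t' : S.sp B ⟶ S.sp D) (x : R.H n D) :
    R.along (t ≫ t') x = R.along t (R.along t' x) :=
  Category.assoc _ _ _

theorem ralong_nsmul (t : S.sp A ⟶ S.sp B) (m : ℕ) (x : R.H n B) :
    R.along t (m • x) = m • R.along t x :=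
  Preadditive.comp_nsmul _ _ _

theorem ralong_zero (t : S.sp A ⟶ S.sp B) : R.along t (0 : R.H n B) = 0 :=
  comp_zero

theorem hurewicz_along (t : S.sp A ⟶ S.sp B) (x : S.Coh n B) :
    R.hurewicz (S.along t x) = R.along t (R.hurewicz x) :=
  Category.assoc _ _ _

theorem hurewicz_nsmul (m : ℕ) (x : S.Coh n B) :
    R.hurewicz (m • x) = m • R.hurewicz x :=
  Preadditive.nsmul_comp _ _ _

end Theory

section Nonequivariant

variable {S : StableCategory one} (F : CohomologyFacts S)

theorem card_smul (H : Subgroup Circle) [Finite H] (x : F.hz.H 2 (under (quo H))) :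
    Nat.card H • x = 0 := by
  rw [← (F.transfers H).tr₁_isTransfer 2 x, F.sphere (F.hz.along _ x), ralong_zero]

/-- The stable cohomotopy class on `(Z × Z)/T` pulled back from the class on `Z/T`. -/
noncomputable def baseClass : S.Coh 2 (orb (prod Z Z)) := S.along (S.map (orbMap (snd Z Z))) F.e

/-- Its image in the stable cohomotopy of `(Z × (T/H × Z/H))/T`. -/
noncomputable def imageClass (H : Subgroup Circle) [Finite H] : S.Coh 2 (orb (prod Z (W H))) :=
  S.along (S.map (orbMap (prodMap Z (sndW H)))) (S.along (F.transfers H).tr₂ (baseClass F))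

theorem hurewicz_image (H : Subgroup Circle) [Finite H] : F.hz.hurewicz (imageClass F H) = 0 := by
  rw [imageClass, baseClass, hurewicz_along, hurewicz_along, hurewicz_along, snd_factor H, S.map_comp,
    ralong_comp, (F.transfers H).tr₂_isTransfer, ralong_nsmul, ← ralong_comp, ← S.map_comp,
    shear_factor, S.map_comp, ralong_comp, ← ralong_nsmul, card_smul F H, ralong_zero]

theorem nsmul_image (H : Subgroup Circle) [Finite H] : F.N • imageClass F H = 0 :=
  F.kernel H _ (hurewicz_image F H)

theorem nsmul_top (x : S.Coh 1 (orb (prod Z (quo ⊤)))) : F.N • x = 0 :=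
  F.kernel_top x (F.product _)

theorem nsmul_base (m : ℕ) (hm : m • baseClass F = 0) : m = 0 := by
  apply F.e_infinite m
  have h : F.e = S.along (S.map (orbMap diag)) (baseClass F) := by
    rw [baseClass, ← along_comp, ← S.map_comp, snd_diag, S.map_id]
    exact (Category.id_comp (obj := S.Ho) F.e).symm
  rw [h, hurewicz_along, ← ralong_nsmul, ← hurewicz_nsmul, hm]
  have : F.hz.hurewicz (0 : S.Coh 2 (orb (prod Z Z))) = 0 := zero_comp
  rw [this, ralong_zero]

end Nonequivariant

section Closed

variable {G : CompactLieGroup} {C : StableCategory G}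

theorem uncurry_nsmul {A B X : C.Ho} (m : ℕ) (g : B ⟶ (ihom A).obj X) :
    uncurry (m • g) = m • uncurry g := by
  rw [uncurry_eq, uncurry_eq]
  have : A ◁ (m • g) = m • (A ◁ g) := (tensorLeft A).map_nsmul
  rw [this, Preadditive.nsmul_comp]

theorem uncurry_zero {A B X : C.Ho} : uncurry (0 : B ⟶ (ihom A).obj X) = 0 := by
  rw [uncurry_eq]
  have : A ◁ (0 : B ⟶ (ihom A).obj X) = 0 := (tensorLeft A).map_zero _ _
  rw [this, zero_comp]

/-- The stable cohomotopy class on `A × B` corresponding to a map from `B₊` to the function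
spectrum of `A₊`. -/
noncomputable def adjoint {A B : GSpace G} {n : ℤ} (g : C.sp B ⟶ C.dual (C.sp A) n) :
    C.Coh n (prod A B) :=
  CategoryStruct.comp (obj := C.Ho) (C.smash A B).inv (uncurry g)

theorem adjoint_nsmul {A B : GSpace G} {n : ℤ} (m : ℕ) (g : C.sp B ⟶ C.dual (C.sp A) n) :
    adjoint (m • g) = m • adjoint g :=
  (congrArg (CategoryStruct.comp (obj := C.Ho) (C.smash A B).inv) (uncurry_nsmul m g)).trans
    (Preadditive.comp_nsmul _ _ _)

theorem adjoint_zero {A B : GSpace G} {n : ℤ} :
    adjoint (0 : C.sp B ⟶ C.dual (C.sp A) n) = 0 :=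
  (congrArg (CategoryStruct.comp (obj := C.Ho) (C.smash A B).inv)
    (uncurry_zero (A := C.sp A) (B := C.sp B) (X := C.sphere n))).trans comp_zero

theorem adjoint_injective {A B : GSpace G} {n : ℤ} :
    Function.Injective (adjoint : (C.sp B ⟶ C.dual (C.sp A) n) → C.Coh n (prod A B)) := by
  intro g g' h
  apply uncurry_injective
  exact (cancel_epi (C.smash A B).inv).1 h

theorem adjoint_surjective {A B : GSpace G} {n : ℤ} :
    Function.Surjective (adjoint : (C.sp B ⟶ C.dual (C.sp A) n) → C.Coh n (prod A B)) := by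
  intro x
  refine ⟨curry (CategoryStruct.comp (obj := C.Ho) (C.smash A B).hom x), ?_⟩
  exact (congrArg (CategoryStruct.comp (obj := C.Ho) (C.smash A B).inv) (uncurry_curry _)).trans
    (Iso.inv_hom_id_assoc (C.smash A B) _)

/-- Naturality for stable maps. -/
theorem adjoint_comp {A B D : GSpace G} {n : ℤ} (t : C.sp D ⟶ C.sp B)
    (g : C.sp B ⟶ C.dual (C.sp A) n) :
    adjoint (t ≫ g) = C.along (C.times A t) (adjoint g) := by
  refine (congrArg (CategoryStruct.comp (obj := C.Ho) (C.smash A D).inv)
    (uncurry_natural_left t g)).trans ?_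
  change _ = ((C.smash A D).inv ≫ C.sp A ◁ t ≫ (C.smash A B).hom) ≫ (C.smash A B).inv ≫ uncurry g
  simp only [Category.assoc, Iso.hom_inv_id_assoc]

theorem times_map (A : GSpace G) {B D : GSpace G} (g : GMap D B) :
    C.times A (C.map g) = C.map (prodMap A g) := by
  rw [StableCategory.times, C.smash_natural, Iso.inv_hom_id_assoc]

end Closed

section Equivariant

variable {S : StableCategory one} {F : CohomologyFacts S} {C : StableCategory circle}
  (K : EquivariantFacts F C)

/-- The class in the stable cohomotopy of `Z × Z` corresponding to the class on `(Z × Z)/T`. -/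
noncomputable def cls : C.Coh 2 (prod Z Z) :=
  (K.free.iso (prod Z Z) isFreeCompact_ZZ 2).symm (baseClass F)

theorem iso_cls : K.free.iso (prod Z Z) isFreeCompact_ZZ 2 (cls K) = baseClass F :=
  AddEquiv.apply_symm_apply _ _

/-- The map from the suspension spectrum of `Z` to its shifted dual. -/
noncomputable def f₀ : C.sp Z ⟶ C.dual (C.sp Z) 2 := (adjoint_surjective (cls K)).choose

theorem adjoint_f₀ : adjoint (f₀ K) = cls K := (adjoint_surjective (cls K)).choose_spec

theorem nsmul_f₀ (m : ℕ) (h : m • f₀ K = 0) : m = 0 := by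
  apply nsmul_base F m
  rw [← iso_cls K, ← map_nsmul, ← adjoint_f₀, ← adjoint_nsmul, h, adjoint_zero, map_zero]

theorem kill_finite (H : Subgroup Circle) (hH : IsClosed (H : Set Circle)) [Finite H] :
    F.N • ((C.map (sndW H) ≫ (K.transfer H).transfer) ≫ f₀ K) = 0 := by
  apply adjoint_injective
  rw [adjoint_nsmul, adjoint_zero, Category.assoc, adjoint_comp, adjoint_comp, times_map,
    adjoint_f₀]
  apply (K.free.iso _ (isFreeCompact_W H hH) 2).injective
  rw [map_nsmul, map_zero,
    K.free_natural _ _ (prodMap Z (sndW H)) (isFreeCompact_W H hH) (isFreeCompact_quo H hH) 2,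
    (K.transfer H).transfer_orbits (isFreeCompact_quo H hH) isFreeCompact_ZZ 2, iso_cls]
  exact nsmul_image F H

include K in
theorem kill_dual (g : C.sp (quo ⊤) ⟶ C.dual (C.sp Z) 1) : F.N • g = 0 := by
  apply adjoint_injective
  rw [adjoint_nsmul, adjoint_zero]
  apply (K.free.iso _ (isFreeCompact_quo ⊤ isClosed_univ) 1).injective
  rw [map_nsmul, map_zero]
  exact nsmul_top F _

theorem kill_top : F.N • (K.transferTop ≫ f₀ K) = 0 := by
  obtain ⟨g, hg⟩ : ∃ g, (shiftFunctor C.Ho (1 : ℤ)).map g =
      (K.transferTop ≫ f₀ K) ≫ K.dual_shift.hom :=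
    (shiftFunctor C.Ho (1 : ℤ)).map_surjective _
  have h : F.N • ((K.transferTop ≫ f₀ K) ≫ K.dual_shift.hom) = 0 := by
    rw [← hg, ← Functor.map_nsmul, kill_dual K g, Functor.map_zero]
  rw [← cancel_mono K.dual_shift.hom, zero_comp, Preadditive.nsmul_comp]
  exact h

theorem push_comp {X Y Y' : C.Ho} (f : X ⟶ Y) (g : Y ⟶ Y') (n : ℤ)
    (H : Subgroup circle.carrier) (a : C.Pi n H X) :
    C.push g n H (C.push f n H a) = C.push (f ≫ g) n H a :=
  Category.assoc _ _ _

theorem push_nsmul {X Y : C.Ho} (f : X ⟶ Y) (m : ℕ) (n : ℤ)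
    (H : Subgroup circle.carrier) (a : C.Pi n H X) :
    C.push (m • f) n H a = m • C.push f n H a :=
  Preadditive.comp_nsmul _ _ _

theorem push_zero {X Y : C.Ho} (n : ℤ) (H : Subgroup circle.carrier) (a : C.Pi n H X) :
    C.push (0 : X ⟶ Y) n H a = 0 :=
  comp_zero

/-- The multiple of `f₀` by `N` is zero on all homotopy groups of fixed points. -/
theorem isGhost : C.IsGhost (F.N • f₀ K) := by
  intro H hH n a
  rcases closed_subgroup H hH with hf | hT
  · obtain ⟨b, rfl⟩ := (K.transfer H).adams n a
    rw [push_comp, Preadditive.comp_nsmul, kill_finite K H hH, push_zero]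
  · subst hT
    obtain ⟨b, rfl⟩ := K.adams_top n a
    rw [push_comp, Preadditive.comp_nsmul, kill_top K, push_zero]

/-- The generating hypothesis fails for the circle group: there is a map of infinite order from the
suspension spectrum of the unit sphere `Z` of `ℂ²` to its dual `F(Z₊, S²)` which is zero on all
homotopy groups of fixed points. -/
theorem counterexample {S : StableCategory one} {F : CohomologyFacts S}
    {C : StableCategory circle} (K : EquivariantFacts F C) :
    ∃ f : C.sp Z ⟶ C.dual (C.sp Z) 2, (∀ m : ℕ, m • f = 0 → m = 0) ∧ C.IsGhost f := by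
  refine ⟨F.N • f₀ K, ?_, isGhost K⟩
  intro m h
  rw [smul_smul] at h
  exact (mul_eq_zero.1 (nsmul_f₀ K _ h)).resolve_right F.N_ne_zero

theorem not_generatingHypothesis {S : StableCategory one} {F : CohomologyFacts S}
    {C : StableCategory circle} (K : EquivariantFacts F C) : ¬ C.GeneratingHypothesis := by
  intro h
  obtain ⟨f, hf, hg⟩ := counterexample K
  refine one_ne_zero (hf 1 ?_)
  rw [one_smul]
  exact (h _ _ K.finite_sphere (K.finite_dual _ K.finite_sphere) f).2 hg

end Equivariant

/-- The equivariant generating hypothesis fails for the circle group, so the answer to question Q1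
is negative. -/
theorem not_Q1 (T : ∀ G : CompactLieGroup, StableCategory G)
    (F : CohomologyFacts (T one)) (K : EquivariantFacts F (T circle)) : ¬ Q1 T :=
  fun h => not_generatingHypothesis K (h circle)

end Pool.Agent.TH177.GH
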