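import Pool.Agent.TH177.GH.Defs

/-!
# The circle group, the sphere in `ℂ²` and its quotients
-/

open CategoryTheory CategoryTheory.Limits MonoidalCategory

namespace Pool.Agent.TH177.GH

section Groups

open scoped Manifold ContDiff

/-- The one-point space is a `0`-dimensional manifold. -/
noncomputable instance chartedPUnit : ChartedSpace (EuclideanSpace ℝ (Fin 0)) PUnit.{1} :=
  (Homeomorph.homeomorphOfUnique PUnit.{1}
    (EuclideanSpace ℝ (Fin 0))).toOpenPartialHomeomorph.singletonChartedSpace rfl

instance manifoldPUnit : IsManifold (𝓡 0) ω PUnit.{1} :=
  OpenPartialHomeomorph.isManifold_singleton _ _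

instance lieGroupPUnit : LieGroup (𝓡 0) ω PUnit.{1} where
  contMDiff_mul := contMDiff_const (c := PUnit.unit)
  contMDiff_inv := contMDiff_const (c := PUnit.unit)

/-- The trivial group, as a compact Lie group. -/
@[reducible] noncomputable def one : CompactLieGroup where
  carrier := PUnit
  dim := 0

/-- The circle group, as a compact Lie group. -/
@[reducible] noncomputable def circle : CompactLieGroup where
  carrier := Circle
  dim := 1

end Groups

/-- The unit sphere of `ℂ²`. -/
abbrev S3 : Type := Metric.sphere (0 : EuclideanSpace ℂ (Fin 2)) 1

/-- The circle group acts on the unit sphere of `ℂ²` by scalar multiplication. -/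
noncomputable instance actS3 : MulAction Circle S3 where
  smul t z := ⟨(t : ℂ) • z.1, by
    have hz : ‖z.1‖ = 1 := by simp
    simp [norm_smul, hz, Circle.norm_coe t]⟩
  one_smul z := Subtype.ext (by
    change ((1 : Circle) : ℂ) • z.1 = z.1
    simp)
  mul_smul s t z := Subtype.ext (by
    change ((s * t : Circle) : ℂ) • z.1 = (s : ℂ) • ((t : ℂ) • z.1)
    rw [Circle.coe_mul, mul_smul])

instance contS3 : ContinuousSMul Circle S3 where
  continuous_smul := by
    refine Continuous.subtype_mk ?_ _
    exact ((continuous_subtype_val : Continuous fun t : Circle => (t : ℂ)).comp
      continuous_fst).smul (continuous_subtype_val.comp continuous_snd)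

/-- The unit sphere of `ℂ²`, as a space with an action of the circle group. -/
noncomputable def Z : GSpace circle where
  carrier := S3
  act := actS3
  cont := contS3

section Quotients

variable {G : CompactLieGroup}

/-- The orbit space of a space with an action of `G`, viewed as a space with an action of the
trivial group. -/
noncomputable def orb (A : GSpace G) : GSpace one :=
  space one (MulAction.orbitRel.Quotient G.carrier A.carrier)

/-- The map induced on orbit spaces. -/
noncomputable def orbMap {A B : GSpace G} (f : GMap A B) : GMap (orb A) (orb B) where
  toFun := Quotient.map' f.toFun (by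
    rintro x y ⟨g, rfl⟩
    exact ⟨g, (f.map_smul g y).symm⟩)
  continuous_toFun := Continuous.quotient_map' f.continuous_toFun _
  map_smul _ _ := rfl

/-- The underlying space of a space with an action of `G`, viewed as a space with an action of the
trivial group. -/
noncomputable def under (A : GSpace G) : GSpace one := space one A.carrier

/-- An equivariant map, viewed as a map of underlying spaces. -/
noncomputable def underMap {A B : GSpace G} (f : GMap A B) : GMap (under A) (under B) where
  toFun := f.toFun
  continuous_toFun := f.continuous_toFun
  map_smul _ _ := rfl

end Quotients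

/-- The action of the circle group on the quotient of a space with an action of the circle group
by a subgroup `H` of the circle group. -/
noncomputable instance quoAct (X : Type) [MulAction Circle X] (H : Subgroup Circle) :
    MulAction Circle (MulAction.orbitRel.Quotient H X) where
  smul t := Quotient.map' (fun x => t • x) (by
    rintro x y ⟨h, rfl⟩
    exact ⟨h, by
      change (h : Circle) • t • y = t • (h : Circle) • y
      rw [← mul_smul, ← mul_smul, mul_comm]⟩)
  one_smul := by
    rintro ⟨x⟩
    exact congrArg _ (one_smul _ x)
  mul_smul := by
    rintro s t ⟨x⟩
    exact congrArg _ (mul_smul s t x)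

theorem isOpenQuotientMap_quo (X : Type) [TopologicalSpace X] [MulAction Circle X]
    [ContinuousSMul Circle X] (H : Subgroup Circle) :
    IsOpenQuotientMap (fun x : X => (Quotient.mk'' x : MulAction.orbitRel.Quotient H X)) :=
  MulAction.isOpenQuotientMap_quotientMk

instance quoCont (X : Type) [TopologicalSpace X] [MulAction Circle X]
    [ContinuousSMul Circle X] (H : Subgroup Circle) :
    ContinuousSMul Circle (MulAction.orbitRel.Quotient H X) where
  continuous_smul := by
    rw [← (IsOpenQuotientMap.id.prodMap (isOpenQuotientMap_quo X H)).continuous_comp_iff]
    exact (isOpenQuotientMap_quo X H).continuous.comp (continuous_fst.smul continuous_snd)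

/-- The quotient `Z/H` of the sphere by a subgroup `H` of the circle group, with the induced action
of the circle group. -/
noncomputable def quo (H : Subgroup Circle) : GSpace circle where
  carrier := MulAction.orbitRel.Quotient H S3
  act := quoAct S3 H
  cont := quoCont S3 H

/-- The quotient map `Z → Z/H`. -/
noncomputable def proj (H : Subgroup Circle) : GMap Z (quo H) where
  toFun := fun x : S3 => (Quotient.mk'' x : MulAction.orbitRel.Quotient H S3)
  continuous_toFun := (isOpenQuotientMap_quo S3 H).continuous
  map_smul _ _ := rfl

/-- The space `T/H × Z/H` with the diagonal action. -/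
noncomputable def W (H : Subgroup Circle) : GSpace circle := prod (orbit H) (quo H)

/-- The projection `T/H × Z/H → Z/H`. -/
noncomputable def sndW (H : Subgroup Circle) : GMap (W H) (quo H) :=
  snd (G := circle) (orbit (G := circle) H) (quo H)

end Pool.Agent.TH177.GH
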